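import Mathlib
import Pool.Agent.H56.Inv.Final

/-!
MP_1e629d_co, real `q`: common definitions of the parts (A) to (E).
-/

set_option autoImplicit false

open Finset

namespace Pool.H53.RQ

/-- `P x l J`: the Schur P polynomial of the list `l` at the points `x j`, `j ∈ J`
(the points are distinct and have no two of sum zero in all uses). -/
noncomputable def P (x : ℕ → ℝ) : List ℕ → Finset ℕ → ℝ
  | [], _ => 1
  | a :: l, J => ∑ j ∈ J,
      x j ^ a * (∏ i ∈ J.erase j, (x j + x i) / (x j - x i)) * P x l (J.erase j)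

/-- `w_i = (q;q²)_i / (q²;q²)_i`. -/
noncomputable def w (q : ℝ) (i : ℕ) : ℝ :=
  ∏ s ∈ range i, (1 - q ^ (2 * s + 1)) / (1 - q ^ (2 * s + 2))

/-- `ψ(A,B) = ∑_{B ≤ i < A} q^i w_i w_{A+B-1-i}` for `A ≥ B`, antisymmetric. -/
noncomputable def psi (q : ℝ) (A B : ℕ) : ℝ :=
  (∑ i ∈ Ico B A, q ^ i * w q i * w q (A + B - 1 - i))
    - ∑ i ∈ Ico A B, q ^ i * w q i * w q (A + B - 1 - i)

/-- `A_{k,m} = ψ(⌈k/2⌉,⌈m/2⌉)`. -/
noncomputable def Akm (q : ℝ) (k m : ℕ) : ℝ := psi q ((k + 1) / 2) ((m + 1) / 2)

/-- The Pfaffian of the array `A` on a list, expanded along the first entry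
(zero for lists of odd length). -/
noncomputable def pf (A : ℕ → ℕ → ℝ) (l : List ℕ) : ℝ :=
  match l with
  | [] => 1
  | a :: l' => ∑ j : Fin l'.length, (-1) ^ (j : ℕ) * A a (l'.get j) * pf A (l'.eraseIdx j)
termination_by l.length
decreasing_by
  simp only [List.length_cons]
  have := List.length_eraseIdx_le l' j
  omega

/-- the coefficient of `P_l` in the expansion of `F`. -/
noncomputable def cf (q : ℝ) (l : List ℕ) : ℝ :=
  if Even l.length then pf (Akm q) l else pf (Akm q) (l ++ [0])

/-- strict partitions of `n` as sets of parts. -/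
def SP (n : ℕ) : Finset (Finset ℕ) := (Icc 1 n).powerset.filter fun s => ∑ i ∈ s, i = n

/-- the decreasing list of the parts. -/
def dl (s : Finset ℕ) : List ℕ := (s.sort (· ≤ ·)).reverse

/-- the window function `F_n(1,q,…,q^{N-1})`. -/
noncomputable def F (q : ℝ) (n N : ℕ) : ℝ := Polynomial.aeval q (Pool.H56.Inv.Fp n N)

/-- States are finite sets of sites; `Op` are the operators on functions of the states. -/
abbrev Op := Module.End ℝ (Finset ℕ → ℝ)

/-- The creation letter: `<v|L₀|u> = 1` if `v = u ∪ {0}`, `0 ∉ u`. -/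
noncomputable def let0 : Op where
  toFun f s := if 0 ∈ s then f (s.erase 0) else 0
  map_add' f g := by
    funext s
    simp only [Pi.add_apply]
    split_ifs <;> simp
  map_smul' c f := by
    funext s
    simp only [Pi.smul_apply, RingHom.id_apply]
    split_ifs <;> simp

/-- The letter `j + 1`: hop from site `j` to site `j + 1`, plus `y j` times the indicator that
site `j` is full (if `pos j`) or empty (if not `pos j`). -/
noncomputable def letS (y : ℕ → ℝ) (pos : ℕ → Bool) (j : ℕ) : Op where
  toFun f s := (if j + 1 ∈ s ∧ j ∉ s then f (insert j (s.erase (j + 1))) else 0)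
    + (if (j ∈ s ↔ pos j = true) then y j * f s else 0)
  map_add' f g := by
    funext s
    simp only [Pi.add_apply]
    split_ifs <;> ring
  map_smul' c f := by
    funext s
    simp only [Pi.smul_apply, RingHom.id_apply, smul_eq_mul]
    split_ifs <;> ring

/-- all letters. -/
noncomputable def lett (y : ℕ → ℝ) (pos : ℕ → Bool) : ℕ → Op
  | 0 => let0
  | j + 1 => letS y pos j

/-- the sum of the letters `0,…,K` (sites `0,…,K-1`). -/
noncomputable def Dop (K : ℕ) (y : ℕ → ℝ) (pos : ℕ → Bool) : Op :=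
  ∑ j ∈ range (K + 1), lett y pos j

/-- the matrix element `<v|T|u>`. -/
noncomputable def me (T : Op) (v u : Finset ℕ) : ℝ := T (Pi.single u 1) v

/-- nodes of the subset `S` of `{0,…,m-1}`: `q^m, q^(m+1)` at the sites `m, m+1`; going down from
site `m-1`, a site of `S` takes the next unused node from the left end of the window
(`1, q, …`), a site outside `S` takes the next unused node from the right end
(`q^(m-1), q^(m-2), …`). -/
noncomputable def nod (q : ℝ) (m : ℕ) (S : Finset ℕ) (s : ℕ) : ℝ :=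
  if m ≤ s then q ^ s
  else if s ∈ S then q ^ ((range m).filter fun i => s < i ∧ i ∈ S).card
  else q ^ (m - 1 - ((range m).filter fun i => s < i ∧ i ∉ S).card)

/-- signs of the nodes: negative exactly at the sites of `S` below `m`. -/
def sgn (m : ℕ) (S : Finset ℕ) (s : ℕ) : Bool := decide (m ≤ s ∨ s ∉ S)

/-- the window functional as an average of matrix elements. -/
noncomputable def W (q : ℝ) (m : ℕ) (g : Polynomial ℝ) : ℝ :=
  ∑ S ∈ (range m).powerset, q ^ (∑ s ∈ range m \ S, (s + 1))
    * me (Polynomial.aeval (Dop (m + 2) (nod q m S) (sgn m S)) g) (S ∪ {m, m + 1}) S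

/-- `(-q^{-K};q)_a`. -/
noncomputable def pk (q : ℝ) (K a : ℕ) : ℝ := ∏ s ∈ range a, (1 + q ^ s / q ^ K)

/-- `(q;q)_a`. -/
noncomputable def qp (q : ℝ) (a : ℕ) : ℝ := ∏ s ∈ range a, (1 - q ^ (s + 1))

/-- the interval coefficients (helper58): interval `[b, k+1-a)`. -/
noncomputable def coef (q : ℝ) (k a b : ℕ) : ℝ :=
  (-1) ^ a * q ^ (k * a + b) * (1 + q ^ (a + b) / q ^ (k + 1)) * pk q (k + 1) a * pk q (k + 1) b
    / ((1 + 1 / q ^ (k + 1)) * qp q a * qp q b)

end Pool.H53.RQ
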