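import Pool.Agent.H53.RQ.Defs

set_option autoImplicit false

open Finset

namespace Pool.H53.RQ

/-- Part (B): the coefficients are nonnegative. -/
theorem partB (q : ℝ) (hq0 : 0 < q) (hq1 : q < 1) (s : Finset ℕ) (hs : 0 ∉ s) :
    0 ≤ cf q (dl s) := by
  sorry

end Pool.H53.RQ
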