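import Pool.Agent.H53.RQ.Defs

set_option autoImplicit false

open Finset

namespace Pool.H53.RQ

/-- Part (C): the average of matrix elements is the window functional. -/
theorem partC (q : ℝ) (hq0 : 0 < q) (hq1 : q < 1) (m : ℕ) : ∃ c0 : ℝ, ∀ g : Polynomial ℝ,
    q ^ ((m + 2).choose 2) * (∏ i ∈ range (m + 1), (1 + q ^ (i + 1))) * W q m g
      = (∑ a ∈ range (m + 2), ∑ b ∈ range (m + 2 - a),
          coef q (m + 1) a b * g.eval (∑ j ∈ Ico b (m + 2 - a), q ^ j)) + c0 * g.eval 0 := by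
  sorry

end Pool.H53.RQ
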