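import Pool.Agent.H53.RQ.Defs

set_option autoImplicit false

open Finset

namespace Pool.H53.RQ

/-- Part (D): the operator of multiplication by a Schur P polynomial has nonnegative entries, for
any signs of the nodes. -/
theorem partD (K : ℕ) (y : ℕ → ℝ) (pos : ℕ → Bool) (hy : ∀ i, i < K → 0 < y i)
    (hinj : ∀ I ⊆ range K, ∀ J ⊆ range K, ∑ i ∈ I, y i = ∑ i ∈ J, y i → I = J)
    (s : Finset ℕ) (hs : 0 ∉ s) (g : Polynomial ℝ)
    (hg : ∀ J ⊆ range K, g.eval (∑ i ∈ J, y i) = P y (dl s) J)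
    (u v : Finset ℕ) (hu : u ⊆ range K) (hv : v ⊆ range K) :
    0 ≤ me (Polynomial.aeval (Dop K y pos) g) v u := by
  sorry

end Pool.H53.RQ
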