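import Pool.Agent.H53.RQ.Defs

set_option autoImplicit false

open Finset

namespace Pool.H53.RQ

/-- Part (E): the interval formula for `γ_{n,k}(q)`. -/
theorem partE (q : ℝ) (hq0 : 0 < q) (hq1 : q < 1) (n k : ℕ) (hn : 1 ≤ n) (hk : k ≤ (n - 1) / 2)
    (γ : ℕ → Polynomial ℤ) (hγ : Pool.H56.InvQ.invPoly n = Pool.H56.InvQ.expansion n γ) :
    q ^ ((k + 1).choose 2) * Polynomial.aeval q (γ k)
      = ∑ a ∈ range (k + 1), ∑ b ∈ range (k + 1 - a),
          coef q k a b * (q ^ (b * n) * F q n (k + 1 - a - b)) := by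
  sorry

end Pool.H53.RQ
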