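import Pool.Agent.H53.RQ.PA
import Pool.Agent.H53.RQ.PB
import Pool.Agent.H53.RQ.PC
import Pool.Agent.H53.RQ.PD
import Pool.Agent.H53.RQ.PE

/-!
Assembly of the parts.
-/

set_option autoImplicit false

open Finset

namespace Pool.H53.RQ

/-- (E3c) -/
theorem P_reindex (x y : ℕ → ℝ) (σ : ℕ → ℕ) (l : List ℕ) : ∀ J : Finset ℕ,
    Set.InjOn σ J → (∀ i ∈ J, y i = x (σ i)) → P y l J = P x l (J.image σ) := by
  induction l with
  | nil => intro J _ _; rfl
  | cons a l ih =>
    intro J hσ hy
    rw [P, P, sum_image (fun i hi j hj h => hσ hi hj h)]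
    apply sum_congr rfl
    intro j hj
    have he : (J.image σ).erase (σ j) = (J.erase j).image σ := by
      ext t
      simp only [mem_erase, mem_image]
      constructor
      · rintro ⟨h1, i, hi, rfl⟩
        exact ⟨i, ⟨fun h => h1 (by rw [h]), hi⟩, rfl⟩
      · rintro ⟨i, ⟨h1, h2⟩, rfl⟩
        exact ⟨fun h => h1 (hσ h2 hj h), i, h2, rfl⟩
    rw [he, ih (J.erase j) (fun i hi k hk h => hσ (mem_of_mem_erase hi) (mem_of_mem_erase hk) h)
      (fun i hi => hy i (mem_of_mem_erase hi)), hy j hj,
      prod_image (fun i hi k hk h => hσ (mem_of_mem_erase hi) (mem_of_mem_erase hk) h)]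
    congr 2
    apply prod_congr rfl
    intro i hi
    rw [hy i (mem_of_mem_erase hi)]

/-- homogeneity and shift of windows. -/
theorem P_shift (q : ℝ) (hq : q ≠ 0) (b : ℕ) (l : List ℕ) : ∀ J : Finset ℕ,
    q ^ (b * l.sum) * P (fun i => q ^ i) l J
      = P (fun i => q ^ i) l (J.image (· + b)) := by
  intro J
  rw [← P_reindex (fun i => q ^ i) (fun i => q ^ (i + b)) (· + b) l J
    (fun i _ j _ h => Nat.add_right_cancel h) (fun i _ => rfl)]
  induction l generalizing J with
  | nil => simp [P]
  | cons a l ih =>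
    rw [P, P, mul_sum]
    apply sum_congr rfl
    intro j hj
    rw [← ih (J.erase j), List.sum_cons]
    have h : ∀ i, (q ^ (j + b) + q ^ (i + b)) / (q ^ (j + b) - q ^ (i + b))
        = (q ^ j + q ^ i) / (q ^ j - q ^ i) := by
      intro i
      rw [pow_add, pow_add, ← add_mul, ← sub_mul]
      exact mul_div_mul_right _ _ (pow_ne_zero _ hq)
    simp only [h]
    ring

theorem sum_dl (s : Finset ℕ) : (dl s).sum = ∑ i ∈ s, i := by
  unfold dl
  rw [List.sum_reverse, ← Multiset.sum_coe, Finset.sort_eq]
  exact (Finset.sum_val s).symm ▸ rfl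

theorem dl_ne_nil {s : Finset ℕ} (h : (∑ i ∈ s, i) ≠ 0) : dl s ≠ [] := by
  intro h1
  apply h
  rw [← sum_dl, h1]
  rfl

theorem P_empty (x : ℕ → ℝ) {l : List ℕ} (h : l ≠ []) : P x l ∅ = 0 := by
  cases l with
  | nil => exact absurd rfl h
  | cons a l => rw [P, sum_empty]

/-- interpolation. -/
theorem exists_interp (K : ℕ) (x : ℕ → ℝ) (l : List ℕ)
    (hinj : ∀ I ⊆ range K, ∀ J ⊆ range K, ∑ i ∈ I, x i = ∑ i ∈ J, x i → I = J) :
    ∃ g : Polynomial ℝ, ∀ J ⊆ range K, g.eval (∑ i ∈ J, x i) = P x l J := by
  refine ⟨Lagrange.interpolate (range K).powerset (fun J => ∑ i ∈ J, x i) (fun J => P x l J), ?_⟩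
  intro J hJ
  exact Lagrange.eval_interpolate_at_node _
    (fun I hI I' hI' h => hinj I (mem_powerset.1 hI) I' (mem_powerset.1 hI') h)
    (mem_powerset.2 hJ)

/-- the node permutation. -/
theorem nod_perm (q : ℝ) (m : ℕ) (S : Finset ℕ) (hS : S ⊆ range m) :
    ∃ σ : ℕ → ℕ, Set.InjOn σ (range (m + 2)) ∧ (range (m + 2)).image σ = range (m + 2) ∧
      ∀ i, i < m + 2 → nod q m S i = q ^ σ i := by
  sorry

theorem F_nonneg (q : ℝ) (hq : 0 < q) (n N : ℕ) : 0 ≤ F q n N := by
  unfold F Pool.H56.Inv.Fp
  rw [map_sum]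
  apply sum_nonneg
  intro A _
  rw [map_pow, Polynomial.aeval_X]
  exact pow_nonneg hq.le _

/-- nonnegativity of `γ_k(q)` for `0 < q < 1` with distinct subset sums. -/
theorem gamma_nonneg (q : ℝ) (hq0 : 0 < q) (hq1 : q < 1) (n k : ℕ) (hn : 1 ≤ n)
    (hk : k ≤ (n - 1) / 2)
    (hinj : ∀ I ⊆ range (k + 1), ∀ J ⊆ range (k + 1),
      ∑ i ∈ I, q ^ i = ∑ i ∈ J, q ^ i → I = J)
    (γ : ℕ → Polynomial ℤ) (hγ : Pool.H56.InvQ.invPoly n = Pool.H56.InvQ.expansion n γ) :
    0 ≤ Polynomial.aeval q (γ k) := by
  have hE := partE q hq0 hq1 n k hn hk γ hγ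
  have hpos : 0 < q ^ ((k + 1).choose 2) := pow_pos hq0 _
  suffices h : 0 ≤ q ^ ((k + 1).choose 2) * Polynomial.aeval q (γ k) from
    nonneg_of_mul_nonneg_right h hpos
  rw [hE]
  rcases k with _ | m
  · have h1 : coef q 0 0 0 = 1 := by
      unfold coef pk qp
      have : (1 : ℝ) + 1 / q ^ 1 ≠ 0 := by positivity
      simp only [pow_zero, Nat.zero_mul, mul_one, one_mul, range_zero, prod_empty, add_zero, zero_add]
      exact div_self this
    simp only [zero_add, range_one, sum_singleton, Nat.sub_zero, h1, Nat.zero_mul, pow_zero,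
      one_mul]
    exact F_nonneg q hq0 n 1
  · -- the main case
    set x : ℕ → ℝ := fun i => q ^ i with hx
    have hg := fun s : Finset ℕ => exists_interp (m + 2) x (dl s) hinj
    choose g hg using hg
    have hW : ∀ s ∈ SP n, 0 ≤ W q m (g s) := by
      intro s hs
      unfold W
      apply sum_nonneg
      intro S hS
      rw [mem_powerset] at hS
      apply mul_nonneg (pow_nonneg hq0.le _)
      obtain ⟨σ, h1, h2, h3⟩ := nod_perm q m S hS
      have hs0 : 0 ∉ s := by
        intro h0
        have := (mem_filter.1 hs).1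
        have := mem_powerset.1 this h0
        simp at this
      have hsum : ∀ J ⊆ range (m + 2), ∑ i ∈ J, nod q m S i = ∑ i ∈ J.image σ, q ^ i := by
        intro J hJ
        rw [sum_image (fun i hi j hj h => h1 (by simpa using hJ hi) (by simpa using hJ hj) h)]
        exact sum_congr rfl fun i hi => h3 i (mem_range.1 (hJ hi))
      have himg : ∀ J ⊆ range (m + 2), J.image σ ⊆ range (m + 2) := by
        intro J hJ
        calc J.image σ ⊆ (range (m + 2)).image σ := image_subset_image hJ
          _ = range (m + 2) := h2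
      apply partD (m + 2) (nod q m S) (sgn m S) _ _ s hs0 (g s)
      · intro J hJ
        rw [hsum J hJ, hg s _ (himg J hJ)]
        exact (P_reindex x (nod q m S) σ (dl s) J
          (fun i hi j hj h => h1 (by simpa using hJ hi) (by simpa using hJ hj) h)
          (fun i hi => h3 i (mem_range.1 (hJ hi)))).symm
      · exact hS.trans (range_subset_range.2 (by omega))
      · intro i hi
        rw [mem_union, mem_insert, mem_singleton] at hi
        rw [mem_range]
        rcases hi with hi | hi | hi
        · have := mem_range.1 (hS hi); omega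
        · omega
        · omega
      · intro i hi
        rw [h3 i hi]
        exact pow_pos hq0 _
      · intro I hI J hJ h
        rw [hsum I hI, hsum J hJ] at h
        have h4 := hinj _ (himg I hI) _ (himg J hJ) h
        ext t
        constructor
        · intro ht
          have : σ t ∈ J.image σ := h4 ▸ mem_image_of_mem σ ht
          obtain ⟨t', ht', he⟩ := mem_image.1 this
          rwa [← h1 (by simpa using hJ ht') (by simpa using hI ht) he]
        · intro ht
          have : σ t ∈ I.image σ := h4 ▸ mem_image_of_mem σ ht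
          obtain ⟨t', ht', he⟩ := mem_image.1 this
          rwa [← h1 (by simpa using hI ht') (by simpa using hJ ht) he]
    obtain ⟨c0, hC⟩ := partC q hq0 hq1 m
    have key : (∑ a ∈ range (m + 1 + 1), ∑ b ∈ range (m + 1 + 1 - a),
          coef q (m + 1) a b * (q ^ (b * n) * F q n (m + 1 + 1 - a - b)))
        = ∑ s ∈ SP n, cf q (dl s) *
          (q ^ ((m + 2).choose 2) * (∏ i ∈ range (m + 1), (1 + q ^ (i + 1))) * W q m (g s)) := by
      have e1 : ∀ a ∈ range (m + 1 + 1), ∀ b ∈ range (m + 1 + 1 - a),
          coef q (m + 1) a b * (q ^ (b * n) * F q n (m + 1 + 1 - a - b))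
          = ∑ s ∈ SP n, cf q (dl s) *
            (coef q (m + 1) a b * (g s).eval (∑ j ∈ Ico b (m + 2 - a), q ^ j)) := by
        intro a ha b hb
        rw [mem_range] at ha hb
        rw [partA q hq0 hq1, mul_sum, mul_sum]
        apply sum_congr rfl
        intro s hs
        have hsn : (dl s).sum = n := by rw [sum_dl]; exact (mem_filter.1 hs).2
        rw [hg s (Ico b (m + 2 - a)) (by
          intro i hi
          rw [mem_Ico] at hi
          rw [mem_range]; omega)]
        have h5 := P_shift q hq0.ne' b (dl s) (range (m + 1 + 1 - a - b))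
        rw [hsn] at h5
        have h6 : (range (m + 1 + 1 - a - b)).image (· + b) = Ico b (m + 2 - a) := by
          ext t
          simp only [mem_image, mem_range, mem_Ico]
          constructor
          · rintro ⟨i, hi, rfl⟩; omega
          · intro h; exact ⟨t - b, by omega, by omega⟩
        rw [h6] at h5
        rw [← h5]
        ring
      rw [sum_congr rfl fun a ha => sum_congr rfl fun b hb => e1 a ha b hb]
      rw [sum_congr rfl fun a ha => sum_comm, sum_comm]
      apply sum_congr rfl
      intro s hs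
      have hsn : (dl s).sum = n := by rw [sum_dl]; exact (mem_filter.1 hs).2
      have h0 : (g s).eval 0 = 0 := by
        have := hg s ∅ (empty_subset _)
        rw [sum_empty, P_empty x (dl_ne_nil (by rw [← sum_dl, hsn]; omega))] at this
        exact this
      rw [hC (g s), h0, mul_zero, add_zero, mul_sum]
      apply sum_congr rfl
      intro a ha
      rw [mul_sum]
    rw [key]
    apply sum_nonneg
    intro s hs
    have hs0 : 0 ∉ s := by
      intro h0
      have := (mem_filter.1 hs).1
      have := mem_powerset.1 this h0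
      simp at this
    apply mul_nonneg (partB q hq0 hq1 s hs0)
    apply mul_nonneg (mul_nonneg (pow_nonneg hq0.le _) (prod_nonneg fun i _ => by positivity))
      (hW s hs)

end Pool.H53.RQ
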