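import Pool.Agent.H20.GI.Frame
import Pool.Agent.H99.PA.FinA
import Pool.Agent.H69.PF.PB
import Pool.Agent.H30.WF.PartC
import Pool.Agent.H51.PR.PartD

/-!
MP_1e629d_co: `γ_{n,k}(q) ≥ 0` for all real `q ≥ 0`, all `n ≥ 1` and all `k ≤ (n-1)/2`.
The assembly of the parts (A) (helper99 and others), (B) (helper69 and others), (C) (helper30,
helper32, helper79 and others), (D) (helper51, helper42 and others), (E) (helper20).
-/

set_option autoImplicit false

namespace Pool.H53.RQ

/-- All coefficients of the expansion are nonnegative functions of `q ≥ 0`. -/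
theorem real_nonneg {n k : ℕ} (hn : 1 ≤ n) (hk : k ≤ (n - 1) / 2) {γ : ℕ → Polynomial ℤ}
    (hγ : Pool.H56.InvQ.invPoly n = Pool.H56.InvQ.expansion n γ) :
    ∀ q : ℝ, 0 ≤ q → 0 ≤ Polynomial.aeval q (γ k) :=
  Pool.H20.GI.frame Pool.Agent.H99.PA.partA Pool.Agent.H69.PF.partB Pool.Agent.H30.WF.partC
    Pool.H51.PR.partD hn hk hγ

end Pool.H53.RQ
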