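import Pool.Agent.H53.RQ.Defs

/-!
MP_1e629d_co, link of the tableau sums with the Schur P polynomials: definitions.
-/

set_option autoImplicit false

open Finset

namespace Pool.H53.RQ

/-- positive distinct points on `J`. -/
def Good (x : ℕ → ℝ) (J : Finset ℕ) : Prop := (∀ i ∈ J, 0 < x i) ∧ Set.InjOn x J

/-- `∏_{i ∈ J - j} (x_j + x_i)/(x_j - x_i)`. -/
noncomputable def cj (x : ℕ → ℝ) (J : Finset ℕ) (j : ℕ) : ℝ :=
  ∏ i ∈ J.erase j, (x j + x i) / (x j - x i)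

/-- `h_m(J)`: `1` for `m = 0`, the one row function `∑_j x_j^m c_j(J)` for `m ≥ 1`. -/
noncomputable def hh (x : ℕ → ℝ) (m : ℕ) (J : Finset ℕ) : ℝ :=
  if m = 0 then 1 else ∑ j ∈ J, x j ^ m * cj x J j

/-- `h_α(J)`, the product over the entries of `α` (zeros allowed). -/
noncomputable def ha (x : ℕ → ℝ) (α : List ℕ) (J : Finset ℕ) : ℝ :=
  (α.map fun m => hh x m J).prod

/-- all partial sums of `α` are at least those of `l`. -/
def Dom (α l : List ℕ) : Prop := ∀ k, (l.take k).sum ≤ (α.take k).sum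

/-- strict partitions as lists. -/
def StrictL (l : List ℕ) : Prop := l.Pairwise (· > ·) ∧ ∀ a ∈ l, 0 < a

/-- `∑_i l_i B^(N-1-i)`. -/
def wt (B : ℕ) : ℕ → List ℕ → ℕ
  | _, [] => 0
  | N, a :: l => a * B ^ (N - 1) + wt B (N - 1) l

theorem P_cons (x : ℕ → ℝ) (a : ℕ) (l : List ℕ) (J : Finset ℕ) :
    P x (a :: l) J = ∑ j ∈ J, x j ^ a * cj x J j * P x l (J.erase j) := rfl

theorem hh_one_row (x : ℕ → ℝ) {m : ℕ} (hm : m ≠ 0) (J : Finset ℕ) : hh x m J = P x [m] J := by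
  rw [P_cons, hh, if_neg hm]
  exact sum_congr rfl fun j _ => by rw [P, mul_one]

end Pool.H53.RQ
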