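import Pool.Agent.H53.RQ.LDefs

/-!
# LKa : partial fractions

COMPLETE PROOF.

(1) `sum_cj`. With `c_k(J) = ∏_{i ∈ J-k} (x_k+x_i)/(x_k-x_i)`: `∑_{k ∈ J} c_k(J) = 1` if `|J|` is odd and
`0` if `|J|` is even. Lagrange: for distinct nodes `z_0, …, z_d` and a polynomial `f` of degree `≤ d` the
sum `∑_k f(z_k)/∏_{i ≠ k} (z_k - z_i)` is the coefficient of `X^d` in `f`. Take the nodes `{0} ∪ {x_j : j ∈ J}`
(`d = |J|`) and `f = ∏_{i ∈ J} (X + x_i)` (monic of degree `d`): the term of the node `0` is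
`∏ x_i / ∏ (-x_i) = (-1)^d`, the term of `x_k` is `2 x_k ∏_{i ≠ k} (x_k+x_i) / (x_k ∏_{i ≠ k} (x_k - x_i))
= 2 c_k(J)`. So `2 ∑ c_k = 1 - (-1)^d`.
(Or: induction on `|J|` with the identity `c_k(J ∪ z) = c_k(J) (x_k+z)/(x_k-z)` and
`∏_{i ∈ J} (z+x_i)/(z-x_i) = 1 + ∑_k 2 x_k c_k(J)/(z-x_k)`, whichever you find easier in Lean.)

(2) `hh_erase`. For `j ∈ J`, `m ≥ 1`:
`h_m(J-j) = h_m(J) + 2 ∑_{0<i<m} (-x_j)^i h_(m-i)(J) + (-x_j)^m`.
For `k ∈ J`, with `a = x_k`, `b = -x_j`: `S_k := a^m + 2 ∑_{0<i<m} b^i a^(m-i)` satisfies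
`(a-b)(S_k + b^m) = (a+b)(a^m - b^m)` (telescoping; Mathlib: `Commute.geom_sum₂_mul`, or induction on `m`).
For `k ≠ j`: `c_k(J) = c_k(J-j) (x_k+x_j)/(x_k-x_j) = c_k(J-j) (a-b)/(a+b)`, so
`S_k c_k(J) = c_k(J-j) (a^m - b^m) - b^m c_k(J)`. For `k = j`: `a = -b`, so `S_j = -b^m` (the formula
`(a-b)(S_j + b^m) = 0`, `a - b = 2 x_j ≠ 0`), `S_j c_j(J) = - b^m c_j(J)`. Sum over `k ∈ J`:
`∑_k S_k c_k(J) = h_m(J-j) - b^m (∑_{k ∈ J-j} c_k(J-j) + ∑_{k ∈ J} c_k(J))` and by (1) the bracket is `1`.
The left side is `h_m(J) + 2 ∑_{0<i<m} b^i h_(m-i)(J)`. QED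
-/

set_option autoImplicit false

open Finset

namespace Pool.H53.RQ

private theorem LKa_erase_none (J : Finset ℕ) :
    (Finset.insertNone J).erase none = J.map Function.Embedding.some := by
  ext o
  cases o with
  | none => simp
  | some k => simp

private theorem LKa_erase_some (J : Finset ℕ) (k : ℕ) :
    (Finset.insertNone J).erase (some k) = Finset.insertNone (J.erase k) := by
  ext o
  cases o with
  | none => simp
  | some i => simp

theorem sum_cj (x : ℕ → ℝ) (J : Finset ℕ) (hx : Good x J) :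
    ∑ k ∈ J, cj x J k = if Odd J.card then 1 else 0 := by
  classical
  obtain ⟨hpos, hinj⟩ := hx
  have hv : Set.InjOn (fun o : Option ℕ => o.elim 0 x) (Finset.insertNone J : Finset (Option ℕ)) := by
    intro a ha b hb hab
    cases a with
    | none =>
      cases b with
      | none => rfl
      | some k =>
        have hk : k ∈ J := by simpa using hb
        have := hpos k hk
        simp only [Option.elim] at hab
        exact absurd hab this.ne
    | some k =>
      have hk : k ∈ J := by simpa using ha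
      cases b with
      | none =>
        have := hpos k hk
        simp only [Option.elim] at hab
        exact absurd hab this.ne'
      | some i =>
        have hi : i ∈ J := by simpa using hb
        simp only [Option.elim] at hab
        rw [hinj hk hi hab]
  have hmon : (∏ i ∈ J, (Polynomial.X + Polynomial.C (x i))).Monic :=
    Polynomial.monic_prod_of_monic _ _ fun i _ => Polynomial.monic_X_add_C _
  have hnat : (∏ i ∈ J, (Polynomial.X + Polynomial.C (x i))).natDegree = J.card := by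
    rw [Polynomial.natDegree_prod_of_monic _ _ fun i _ => Polynomial.monic_X_add_C _]
    simp
  have hdeg : (∏ i ∈ J, (Polynomial.X + Polynomial.C (x i))).degree
      < ((Finset.insertNone J).card : WithBot ℕ) := by
    rw [Polynomial.degree_eq_natDegree hmon.ne_zero, hnat, Finset.card_insertNone]
    exact_mod_cast Nat.lt_succ_self _
  have h := Lagrange.coeff_eq_sum hv hdeg
  rw [Finset.card_insertNone, Nat.add_sub_cancel] at h
  have hc : (∏ i ∈ J, (Polynomial.X + Polynomial.C (x i))).coeff J.card = 1 := by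
    have := hmon.coeff_natDegree
    rwa [hnat] at this
  rw [hc, Finset.sum_insertNone, LKa_erase_none] at h
  have h0 : Polynomial.eval ((none : Option ℕ).elim 0 x)
      (∏ i ∈ J, (Polynomial.X + Polynomial.C (x i)))
      / ∏ j ∈ J.map Function.Embedding.some, ((none : Option ℕ).elim 0 x - j.elim 0 x)
      = (-1) ^ J.card := by
    rw [Finset.prod_map, Polynomial.eval_prod, ← Finset.prod_div_distrib, ← Finset.prod_const]
    refine Finset.prod_congr rfl fun i hi => ?_
    have := (hpos i hi).ne'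
    simp only [Option.elim, Function.Embedding.some_apply, Polynomial.eval_add,
      Polynomial.eval_X, Polynomial.eval_C]
    field_simp
    ring
  have h1 : ∀ k ∈ J, Polynomial.eval ((some k : Option ℕ).elim 0 x)
      (∏ i ∈ J, (Polynomial.X + Polynomial.C (x i)))
      / ∏ j ∈ (Finset.insertNone J).erase (some k), ((some k : Option ℕ).elim 0 x - j.elim 0 x)
      = 2 * cj x J k := by
    intro k hk
    rw [LKa_erase_some, Finset.prod_insertNone, Polynomial.eval_prod,
      ← Finset.mul_prod_erase J _ hk, cj, Finset.prod_div_distrib]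
    have := (hpos k hk).ne'
    simp only [Option.elim, Polynomial.eval_add, Polynomial.eval_X, Polynomial.eval_C, sub_zero]
    have hne : ∏ i ∈ J.erase k, (x k - x i) ≠ 0 := by
      rw [Finset.prod_ne_zero_iff]
      intro i hi
      rw [Finset.mem_erase] at hi
      refine sub_ne_zero.2 fun he => hi.1 ?_
      exact (hinj hk hi.2 he).symm
    field_simp
    ring
  rw [h0, Finset.sum_congr rfl h1, ← Finset.mul_sum] at h
  split_ifs with ho
  · rw [ho.neg_one_pow] at h
    linarith
  · rw [Nat.not_odd_iff_even] at ho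
    rw [ho.neg_one_pow] at h
    linarith

/-- `a^m + 2 ∑_{0<i<m} b^i a^(m-i)`, telescoped. -/
private theorem LKa_tel (a b : ℝ) (m : ℕ) (hm : 0 < m) :
    (a - b) * (a ^ m + 2 * (∑ i ∈ Ico 1 m, b ^ i * a ^ (m - i)) + b ^ m)
      = (a + b) * (a ^ m - b ^ m) := by
  induction m, hm using Nat.le_induction with
  | base => simp; ring
  | succ n hn ih =>
    have hs : ∑ i ∈ Ico 1 (n + 1), b ^ i * a ^ (n + 1 - i)
        = a * (∑ i ∈ Ico 1 n, b ^ i * a ^ (n - i)) + a * b ^ n := by
      rw [Finset.sum_Ico_succ_top hn, Finset.mul_sum]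
      congr 1
      · refine Finset.sum_congr rfl fun i hi => ?_
        rw [Finset.mem_Ico] at hi
        rw [show n + 1 - i = (n - i) + 1 by omega, pow_succ]
        ring
      · rw [show n + 1 - n = 1 by omega, pow_one]
        ring
    rw [hs]
    linear_combination a * ih

theorem hh_erase (x : ℕ → ℝ) (J : Finset ℕ) (hx : Good x J) (j : ℕ) (hj : j ∈ J) (m : ℕ)
    (hm : 0 < m) :
    hh x m (J.erase j)
      = hh x m J + 2 * (∑ i ∈ Ico 1 m, (-x j) ^ i * hh x (m - i) J) + (-x j) ^ m := by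
  have hxe : Good x (J.erase j) :=
    ⟨fun i hi => hx.1 i (Finset.mem_of_mem_erase hi),
      hx.2.mono fun i hi => Finset.mem_of_mem_erase hi⟩
  have hs1 := sum_cj x J hx
  have hs2 := sum_cj x (J.erase j) hxe
  have hcard : J.card = (J.erase j).card + 1 := by
    rw [Finset.card_erase_add_one hj]
  have hsum : ∑ k ∈ J, cj x J k + ∑ k ∈ J.erase j, cj x (J.erase j) k = 1 := by
    rw [hs1, hs2, hcard]
    by_cases ho : Odd (J.erase j).card
    · rw [if_neg (by rw [Nat.not_odd_iff_even]; exact ho.add_one), if_pos ho]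
      ring
    · rw [if_pos (by rw [Nat.not_odd_iff_even] at ho; exact ho.add_one), if_neg ho]
      ring
  have hm0 : m ≠ 0 := hm.ne'
  -- the left side as one sum over `J`
  have hL : hh x m J + 2 * (∑ i ∈ Ico 1 m, (-x j) ^ i * hh x (m - i) J)
      = ∑ k ∈ J, (x k ^ m + 2 * (∑ i ∈ Ico 1 m, (-x j) ^ i * x k ^ (m - i))) * cj x J k := by
    rw [hh, if_neg hm0]
    have : ∑ i ∈ Ico 1 m, (-x j) ^ i * hh x (m - i) J
        = ∑ k ∈ J, (∑ i ∈ Ico 1 m, (-x j) ^ i * x k ^ (m - i)) * cj x J k := by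
      simp only [Finset.sum_mul]
      rw [Finset.sum_comm]
      refine Finset.sum_congr rfl fun i hi => ?_
      rw [Finset.mem_Ico] at hi
      rw [hh, if_neg (by omega), Finset.mul_sum]
      exact Finset.sum_congr rfl fun k _ => by ring
    rw [this, Finset.mul_sum, ← Finset.sum_add_distrib]
    exact Finset.sum_congr rfl fun k _ => by ring
  have hk : ∀ k ∈ J.erase j,
      (x k ^ m + 2 * (∑ i ∈ Ico 1 m, (-x j) ^ i * x k ^ (m - i))) * cj x J k
        = cj x (J.erase j) k * (x k ^ m - (-x j) ^ m) - (-x j) ^ m * cj x J k := by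
    intro k hk
    rw [Finset.mem_erase] at hk
    have hjk : j ∈ J.erase k := Finset.mem_erase.2 ⟨fun h => hk.1 h.symm, hj⟩
    have hc : cj x J k = cj x (J.erase j) k * ((x k + x j) / (x k - x j)) := by
      rw [cj, cj, ← Finset.mul_prod_erase _ _ hjk, Finset.erase_right_comm, mul_comm]
    have ht := LKa_tel (x k) (-x j) m hm
    have hne : x k - x j ≠ 0 := sub_ne_zero.2 fun he => hk.1 (hx.2 hk.2 hj he)
    rw [hc]
    field_simp
    linear_combination cj x (J.erase j) k * ht
  have hjj : (x j ^ m + 2 * (∑ i ∈ Ico 1 m, (-x j) ^ i * x j ^ (m - i))) * cj x J j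
      = - (-x j) ^ m * cj x J j := by
    have ht := LKa_tel (x j) (-x j) m hm
    have hp := hx.1 j hj
    have h0 : (x j ^ m + 2 * (∑ i ∈ Ico 1 m, (-x j) ^ i * x j ^ (m - i)) + (-x j) ^ m) = 0 := by
      have h2 : (x j - -x j) * (x j ^ m + 2 * (∑ i ∈ Ico 1 m, (-x j) ^ i * x j ^ (m - i))
          + (-x j) ^ m) = 0 := by
        rw [ht]; ring
      rcases mul_eq_zero.1 h2 with h | h
      · exfalso; linarith
      · exact h
    linear_combination cj x J j * h0
  have hE : hh x m (J.erase j) = ∑ k ∈ J.erase j, x k ^ m * cj x (J.erase j) k := by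
    rw [hh, if_neg hm0]
  rw [hL, hE, ← Finset.add_sum_erase J _ hj, hjj, Finset.sum_congr rfl hk,
    Finset.sum_sub_distrib, ← Finset.mul_sum]
  have h3 : ∑ k ∈ J.erase j, cj x (J.erase j) k * (x k ^ m - (-x j) ^ m)
      = ∑ k ∈ J.erase j, x k ^ m * cj x (J.erase j) k
        - (-x j) ^ m * ∑ k ∈ J.erase j, cj x (J.erase j) k := by
    rw [Finset.mul_sum, ← Finset.sum_sub_distrib]
    exact Finset.sum_congr rfl fun k _ => by ring
  have h4 : ∑ k ∈ J.erase j, cj x J k = ∑ k ∈ J, cj x J k - cj x J j := by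
    rw [← Finset.add_sum_erase J _ hj]; ring
  rw [h3, h4]
  linear_combination (-x j) ^ m * hsum

end Pool.H53.RQ
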