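import Pool.Agent.H53.RQ.LKa

/-!
# LKb : `P_l` as a universal combination of products of one row functions

COMPLETE PROOF.

(1) `erase_expand`: for every list `α` there is a finite list `L` of triples `(z, e, β)`, `z ∈ ℤ`,
`e ∈ ℕ`, `β` a list, such that for all `x`, `J`, `j ∈ J` with `Good x J`:
`∏_s h_(α_s)(J-j) = h_α(J) + ∑_{(z,e,β) ∈ L} z x_j^e h_β(J)`,
and for every `(z,e,β) ∈ L`: `e > 0`, `β.length = α.length`, `e + β.sum = α.sum`, and
`∀ k, (α.take k).sum ≤ e + (β.take k).sum`.
Induction on `α`. `α = []`: `L = []`. `α = m :: α'`: for `m = 0` the factor is `1 = h_0(J)`: map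
`(z,e,β) ↦ (z,e,0::β)`. For `m ≥ 1` by `hh_erase` the factor is
`h_m(J) + ∑_{0<i<m} 2 (-1)^i x_j^i h_(m-i)(J) + (-1)^m x_j^m h_0(J)`, a sum of `h_m(J)` and terms
`z' x_j^(e') h_(m-e')(J)` with `0 < e' ≤ m`; multiply by `h_(α')(J) + ∑ z x_j^e h_β(J)`: the product is
`h_(m::α')(J)` plus the terms `(z', e', (m-e')::α')`, `(z, e, m::β)`, `(z z', e+e', (m-e')::β)`. The
conditions on partial sums: `(m::α').take (k+1)` has sum `m + (α'.take k).sum ≤ e' + (m-e') + ..`.

(2) `P_expand`: induction on `l`. `l = []`: `P = 1 = h_[]`, `L = []`. `l = a :: l'`, `a > 0`: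
`P(a::l')(J) = ∑_j x_j^a c_j(J) P_(l')(J-j)`, and by induction (for `J-j`, still `Good`)
`P_(l')(J-j) = h_(l')(J-j) + ∑_{(z,α) ∈ L'} z h_α(J-j)`; expand every `h_α(J-j)` by (1) and use
`∑_j x_j^(a+e) c_j(J) = h_(a+e)(J)` (`a + e > 0`). Result: `h_(a::l')(J)`
`+ ∑_{(z,e,β) ∈ L(l')} z h_((a+e)::β)(J) + ∑_{(z',α) ∈ L'} z' [h_(a::α)(J) + ∑_{(z,e,β) ∈ L(α)} z h_((a+e)::β)(J)]`.
All lists other than the first are `≠ a::l'` (first entry `a+e > a`, or tail `α ≠ l'`), have the right length
and sum, and dominate `a::l'`: for `(a+e)::β`: partial sums `a + e + (β.take k).sum ≥ a + (α.take k).sum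
≥ a + (l'.take k).sum`. QED
-/

set_option autoImplicit false

open Finset

namespace Pool.H53.RQ

private theorem LKb_swap {ι : Type*} (J : Finset ℕ) (c : ℕ → ℝ) (L : List ι) (f : ι → ℕ → ℝ) :
    ∑ j ∈ J, c j * (L.map fun p => f p j).sum = (L.map fun p => ∑ j ∈ J, c j * f p j).sum := by
  induction L with
  | nil => simp
  | cons p L ih => simp only [List.map_cons, List.sum_cons, mul_add, sum_add_distrib, ih]

private theorem LKb_flat {ι κ : Type*} (F : List ι) (G : ι → List κ) (f : κ → ℝ) :
    ((F.flatMap G).map f).sum = (F.map fun a => ((G a).map f).sum).sum := by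
  induction F with
  | nil => simp
  | cons a F ih => simp [List.flatMap_cons, ih]

private theorem LKb_factor (m : ℕ) : ∃ F : List (ℤ × ℕ),
    (∀ t ∈ F, 0 < t.2 ∧ t.2 ≤ m) ∧
    ∀ (x : ℕ → ℝ) (J : Finset ℕ) (j : ℕ), j ∈ J → Good x J →
      hh x m (J.erase j)
        = hh x m J + (F.map fun t => (t.1 : ℝ) * x j ^ t.2 * hh x (m - t.2) J).sum := by
  rcases Nat.eq_zero_or_pos m with hm | hm
  · subst hm
    exact ⟨[], by simp, fun x J j _ _ => by simp [hh]⟩
  · refine ⟨((List.range' 1 (m - 1)).map fun i => ((2 * (-1) ^ i : ℤ), i)) ++ [((-1) ^ m, m)],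
      ?_, ?_⟩
    · intro t ht
      rcases List.mem_append.1 ht with ht | ht
      · obtain ⟨i, hi, rfl⟩ := List.mem_map.1 ht
        rw [List.mem_range'_1] at hi
        constructor <;> dsimp only <;> omega
      · rw [List.mem_singleton.1 ht]
        exact ⟨hm, le_rfl⟩
    · intro x J j hj hx
      rw [hh_erase x J hx j hj m hm, List.map_append, List.sum_append, List.map_map]
      have h1 : ∑ i ∈ Ico 1 m, (-x j) ^ i * hh x (m - i) J
          = ((List.range' 1 (m - 1)).map fun i => (-x j) ^ i * hh x (m - i) J).sum := by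
        rw [← List.sum_toFinset _ (List.nodup_range')]
        refine sum_congr ?_ fun _ _ => rfl
        ext i
        simp only [mem_Ico, List.mem_toFinset, List.mem_range'_1]
        omega
      rw [h1, ← List.sum_map_mul_left]
      have h2 : (List.map ((fun t : ℤ × ℕ => (t.1 : ℝ) * x j ^ t.2 * hh x (m - t.2) J)
            ∘ fun i => ((2 * (-1) ^ i : ℤ), i)) (List.range' 1 (m - 1)))
          = (List.range' 1 (m - 1)).map fun i => 2 * ((-x j) ^ i * hh x (m - i) J) := by
        refine List.map_congr_left fun i _ => ?_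
        simp only [Function.comp_apply]
        push_cast
        rw [neg_pow (x j) i]
        ring
      rw [h2]
      simp only [List.map_cons, List.map_nil, List.sum_cons, List.sum_nil, Nat.sub_self]
      have h3 : hh x 0 J = 1 := by simp [hh]
      rw [h3]
      push_cast
      rw [neg_pow (x j) m]
      ring

theorem erase_expand (α : List ℕ) : ∃ L : List (ℤ × ℕ × List ℕ),
    (∀ p ∈ L, 0 < p.2.1 ∧ p.2.2.length = α.length ∧ p.2.1 + p.2.2.sum = α.sum ∧
      ∀ k, (α.take k).sum ≤ p.2.1 + (p.2.2.take k).sum) ∧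
    ∀ (x : ℕ → ℝ) (J : Finset ℕ) (j : ℕ), j ∈ J → Good x J →
      ha x α (J.erase j)
        = ha x α J + (L.map fun p => (p.1 : ℝ) * x j ^ p.2.1 * ha x p.2.2 J).sum := by
  induction α with
  | nil => exact ⟨[], by simp, fun x J j _ _ => by simp [ha]⟩
  | cons m α ih =>
    obtain ⟨L, hL, hE⟩ := ih
    obtain ⟨F, hF, hFE⟩ := LKb_factor m
    refine ⟨(F.map fun t => (t.1, t.2, (m - t.2) :: α)) ++
      ((L.map fun p => (p.1, p.2.1, m :: p.2.2)) ++
        F.flatMap fun t => L.map fun p => (t.1 * p.1, t.2 + p.2.1, (m - t.2) :: p.2.2)), ?_, ?_⟩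
    · intro p hp
      rcases List.mem_append.1 hp with hp | hp
      · obtain ⟨t, ht, rfl⟩ := List.mem_map.1 hp
        obtain ⟨h1, h2⟩ := hF t ht
        refine ⟨h1, by simp, by simp only [List.sum_cons]; omega, fun k => ?_⟩
        cases k with
        | zero => simp
        | succ k => simp only [List.take_succ_cons, List.sum_cons]; omega
      rcases List.mem_append.1 hp with hp | hp
      · obtain ⟨r, hr, rfl⟩ := List.mem_map.1 hp
        obtain ⟨h1, h2, h3, h4⟩ := hL r hr
        refine ⟨h1, by simp only [List.length_cons]; omega, by simp only [List.sum_cons]; omega,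
          fun k => ?_⟩
        cases k with
        | zero => simp
        | succ k =>
          have := h4 k
          simp only [List.take_succ_cons, List.sum_cons]; omega
      · obtain ⟨t, ht, hp⟩ := List.mem_flatMap.1 hp
        obtain ⟨r, hr, rfl⟩ := List.mem_map.1 hp
        obtain ⟨g1, g2⟩ := hF t ht
        obtain ⟨h1, h2, h3, h4⟩ := hL r hr
        refine ⟨by dsimp only; omega, by simp only [List.length_cons]; omega,
          by simp only [List.sum_cons]; omega, fun k => ?_⟩
        cases k with
        | zero => simp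
        | succ k =>
          have := h4 k
          simp only [List.take_succ_cons, List.sum_cons]; omega
    · intro x J j hj hx
      have e1 : ∀ (K : Finset ℕ) (b : ℕ) (β : List ℕ), ha x (b :: β) K = hh x b K * ha x β K :=
        fun K b β => by simp [ha]
      rw [e1, hFE x J j hj hx, hE x J j hj hx, List.map_append, List.sum_append, List.map_append,
        List.sum_append, LKb_flat, List.map_map, List.map_map, e1]
      have s1 : (List.map ((fun p : ℤ × ℕ × List ℕ => (p.1 : ℝ) * x j ^ p.2.1 * ha x p.2.2 J)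
            ∘ fun t : ℤ × ℕ => (t.1, t.2, (m - t.2) :: α)) F).sum
          = (F.map fun t => (t.1 : ℝ) * x j ^ t.2 * hh x (m - t.2) J).sum * ha x α J := by
        rw [← List.sum_map_mul_right]
        refine congrArg List.sum (List.map_congr_left fun t _ => ?_)
        simp only [Function.comp_apply, e1]
        ring
      have s2 : (List.map ((fun p : ℤ × ℕ × List ℕ => (p.1 : ℝ) * x j ^ p.2.1 * ha x p.2.2 J)
            ∘ fun p : ℤ × ℕ × List ℕ => (p.1, p.2.1, m :: p.2.2)) L).sum
          = hh x m J * (L.map fun p => (p.1 : ℝ) * x j ^ p.2.1 * ha x p.2.2 J).sum := by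
        rw [← List.sum_map_mul_left]
        refine congrArg List.sum (List.map_congr_left fun t _ => ?_)
        simp only [Function.comp_apply, e1]
        ring
      have s3 : (F.map fun t => ((L.map fun p : ℤ × ℕ × List ℕ =>
            (t.1 * p.1, t.2 + p.2.1, (m - t.2) :: p.2.2)).map
              fun p : ℤ × ℕ × List ℕ => (p.1 : ℝ) * x j ^ p.2.1 * ha x p.2.2 J).sum).sum
          = (F.map fun t => (t.1 : ℝ) * x j ^ t.2 * hh x (m - t.2) J).sum
            * (L.map fun p => (p.1 : ℝ) * x j ^ p.2.1 * ha x p.2.2 J).sum := by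
        rw [← List.sum_map_mul_right]
        refine congrArg List.sum (List.map_congr_left fun t _ => ?_)
        rw [List.map_map, ← List.sum_map_mul_left]
        refine congrArg List.sum (List.map_congr_left fun p _ => ?_)
        simp only [Function.comp_apply, e1]
        push_cast
        ring
      rw [s1, s2, s3]
      ring

private theorem LKb_row {a : ℕ} (ha0 : 0 < a) (α : List ℕ) (L : List (ℤ × ℕ × List ℕ))
    (hE : ∀ (x : ℕ → ℝ) (J : Finset ℕ) (j : ℕ), j ∈ J → Good x J →
      ha x α (J.erase j)
        = ha x α J + (L.map fun p => (p.1 : ℝ) * x j ^ p.2.1 * ha x p.2.2 J).sum)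
    (x : ℕ → ℝ) (J : Finset ℕ) (hx : Good x J) :
    ∑ j ∈ J, x j ^ a * cj x J j * ha x α (J.erase j)
      = ha x (a :: α) J + (L.map fun p => (p.1 : ℝ) * ha x ((a + p.2.1) :: p.2.2) J).sum := by
  have e1 : ∀ (K : Finset ℕ) (b : ℕ) (β : List ℕ), ha x (b :: β) K = hh x b K * ha x β K :=
    fun K b β => by simp [ha]
  have e2 : ∀ b : ℕ, 0 < b → hh x b J = ∑ j ∈ J, x j ^ b * cj x J j := fun b hb => by
    rw [hh, if_neg hb.ne']
  have h1 : ∑ j ∈ J, x j ^ a * cj x J j * ha x α (J.erase j)
      = ∑ j ∈ J, x j ^ a * cj x J j * ha x α J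
        + ∑ j ∈ J, x j ^ a * cj x J j
          * (L.map fun p => (p.1 : ℝ) * x j ^ p.2.1 * ha x p.2.2 J).sum := by
    rw [← sum_add_distrib]
    refine sum_congr rfl fun j hj => ?_
    rw [hE x J j hj hx]
    ring
  rw [h1, LKb_swap J (fun j => x j ^ a * cj x J j) L
    (fun p j => (p.1 : ℝ) * x j ^ p.2.1 * ha x p.2.2 J), e1, e2 a ha0, sum_mul]
  congr 1
  refine congrArg List.sum (List.map_congr_left fun p _ => ?_)
  rw [e1, e2 (a + p.2.1) (by omega), sum_mul, mul_sum]
  refine sum_congr rfl fun j _ => ?_
  rw [pow_add]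
  ring

theorem P_expand (l : List ℕ) (hl : ∀ a ∈ l, 0 < a) : ∃ L : List (ℤ × List ℕ),
    (∀ p ∈ L, p.2.length = l.length ∧ p.2.sum = l.sum ∧ Dom p.2 l ∧ p.2 ≠ l) ∧
    ∀ (x : ℕ → ℝ) (J : Finset ℕ), Good x J →
      P x l J = ha x l J + (L.map fun p => (p.1 : ℝ) * ha x p.2 J).sum := by
  induction l with
  | nil => exact ⟨[], by simp, fun x J _ => by simp [ha, P]⟩
  | cons a l ih =>
    have ha0 : 0 < a := hl a (by simp)
    obtain ⟨L', hL', hP'⟩ := ih fun b hb => hl b (List.mem_cons_of_mem _ hb)
    choose E hE1 hE2 using erase_expand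
    refine ⟨((E l).map fun p => (p.1, (a + p.2.1) :: p.2.2)) ++
      L'.flatMap fun r => (r.1, a :: r.2) ::
        ((E r.2).map fun p => (r.1 * p.1, (a + p.2.1) :: p.2.2)), ?_, ?_⟩
    · intro p hp
      rcases List.mem_append.1 hp with hp | hp
      · obtain ⟨r, hr, rfl⟩ := List.mem_map.1 hp
        obtain ⟨h1, h2, h3, h4⟩ := hE1 l r hr
        refine ⟨by simp only [List.length_cons]; omega, by simp only [List.sum_cons]; omega,
          fun k => ?_, fun h => ?_⟩
        · cases k with
          | zero => simp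
          | succ k =>
            have := h4 k
            simp only [List.take_succ_cons, List.sum_cons]; omega
        · have := (List.cons.inj h).1
          omega
      · obtain ⟨r, hr, hp⟩ := List.mem_flatMap.1 hp
        obtain ⟨g1, g2, g3, g4⟩ := hL' r hr
        rcases List.mem_cons.1 hp with rfl | hp
        · refine ⟨by simp only [List.length_cons]; omega, by simp only [List.sum_cons]; omega,
            fun k => ?_, fun h => g4 (List.cons.inj h).2⟩
          cases k with
          | zero => simp
          | succ k =>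
            have := g3 k
            simp only [List.take_succ_cons, List.sum_cons]; omega
        · obtain ⟨t, ht, rfl⟩ := List.mem_map.1 hp
          obtain ⟨h1, h2, h3, h4⟩ := hE1 r.2 t ht
          refine ⟨by simp only [List.length_cons]; omega, by simp only [List.sum_cons]; omega,
            fun k => ?_, fun h => ?_⟩
          · cases k with
            | zero => simp
            | succ k =>
              have := h4 k
              have := g3 k
              simp only [List.take_succ_cons, List.sum_cons]; omega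
          · have := (List.cons.inj h).1
            omega
    · intro x J hx
      have hxe : ∀ j, Good x (J.erase j) := fun j =>
        ⟨fun i hi => hx.1 i (Finset.mem_of_mem_erase hi),
          hx.2.mono fun i hi => Finset.mem_of_mem_erase hi⟩
      have h1 : P x (a :: l) J = ∑ j ∈ J, x j ^ a * cj x J j * ha x l (J.erase j)
          + ∑ j ∈ J, x j ^ a * cj x J j
            * (L'.map fun r => (r.1 : ℝ) * ha x r.2 (J.erase j)).sum := by
        rw [P_cons, ← sum_add_distrib]
        refine sum_congr rfl fun j _ => ?_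
        rw [hP' x (J.erase j) (hxe j)]
        ring
      rw [h1, LKb_row ha0 l (E l) (hE2 l) x J hx,
        LKb_swap J (fun j => x j ^ a * cj x J j) L'
          (fun r j => (r.1 : ℝ) * ha x r.2 (J.erase j)),
        List.map_append, List.sum_append, List.map_map, LKb_flat]
      have s1 : (L'.map fun r => ∑ j ∈ J, x j ^ a * cj x J j
            * ((r.1 : ℝ) * ha x r.2 (J.erase j))).sum
          = (L'.map fun r => (((r.1, a :: r.2) ::
              ((E r.2).map fun p => (r.1 * p.1, (a + p.2.1) :: p.2.2))).map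
                fun p : ℤ × List ℕ => (p.1 : ℝ) * ha x p.2 J).sum).sum := by
        refine congrArg List.sum (List.map_congr_left fun r _ => ?_)
        have h2 : ∑ j ∈ J, x j ^ a * cj x J j * ((r.1 : ℝ) * ha x r.2 (J.erase j))
            = (r.1 : ℝ) * ∑ j ∈ J, x j ^ a * cj x J j * ha x r.2 (J.erase j) := by
          rw [mul_sum]
          exact sum_congr rfl fun j _ => by ring
        rw [h2, LKb_row ha0 r.2 (E r.2) (hE2 r.2) x J hx, List.map_cons, List.sum_cons,
          List.map_map, mul_add, ← List.sum_map_mul_left]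
        congr 1
        refine congrArg List.sum (List.map_congr_left fun p _ => ?_)
        simp only [Function.comp_apply]
        push_cast
        ring
      rw [s1, add_assoc]
      rfl

end Pool.H53.RQ
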