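import Pool.Agent.H53.RQ.LDefs

/-!
# LKc : growth of `P_l` at the points `T^(B^j)`

COMPLETE PROOF. Points `x_j = T^(B^j)`, `j < N`, `B ≥ 2`, `T ≥ 2`.

(1) For `i ≠ j`: `|(x_j+x_i)/(x_j-x_i)| ≤ 3`, since the larger of the two is at least `T ≥ 2` times the
smaller (`B^j ≠ B^i`, exponents differ by at least `1`). So `|c_j(J)| ≤ 3^N` for `J ⊆ range N`.

(2) For a list `l` (decreasing) and a finite set `J` let `top l J` be `∑_i l_i B^(j_i)`, where `j_1 > j_2 > ..`
are the elements of `J` in decreasing order (recursively: `top [] J = 0`,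
`top (a::l) J = a B^(max J) + top l (J - max J)`, `0` if `J` is empty). CLAIM: `|P x l J| ≤ C T^(top l J)`
with `C` depending only on `N` and `l` (`C = (N 3^N)^(len l)`), for every decreasing list `l` and
`J ⊆ range N` with `len l ≤ |J|` (for `len l > |J|` one has `P x l J = 0`, because the recursion ends
with a sum over the empty set). Induction on `l`: `|P (a::l) J| ≤ ∑_{j ∈ J} T^(a B^j) 3^N C' T^(top l (J-j))`,
and `a B^j + top l (J-j) ≤ top (a::l) J` for all `j ∈ J`: if `j = max J` this is an equality; otherwise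
`top l (J-j) = l_1 B^(M) + top l' (J-j-M)`, `M = max J`, and by induction on `l`
(`l_1 B^j + top l' ((J-M)-j) ≤ top (l_1::l') (J-M)`) and `(a - l_1) (B^M - B^j) ≥ 0`:
`a B^j + l_1 B^M + top l' (J-j-M) ≤ a B^M + l_1 B^j + top l' (J-M-j) ≤ a B^M + top l (J-M) = top (a::l) J`.
(If the list is longer than the set the same inequality holds with the convention for empty sets, or treat
that case by `P = 0`.) You may replace `top` by any other bookkeeping, for example by
'for every injective choice of indices `σ_1, .., σ_r` in `range N`: `∑ l_i B^(σ_i) ≤ wt B N l`', proved by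
Abel summation: `∑ l_i B^(σ_i) = ∑_k (l_k - l_(k+1)) (B^(σ_1) + .. + B^(σ_k))` and `k` different powers
`B^(σ)`, `σ < N`, sum to at most `B^(N-1) + .. + B^(N-k)`.

(3) `top l (range N) = wt B N l` for `len l ≤ N`. QED
-/

set_option autoImplicit false

open Finset

namespace Pool.H53.RQ

theorem P_long (x : ℕ → ℝ) (l : List ℕ) (J : Finset ℕ) (h : J.card < l.length) :
    P x l J = 0 := by
  induction l generalizing J with
  | nil => simp at h
  | cons a l ih =>
    rw [P_cons]
    refine sum_eq_zero fun j hj => ?_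
    rw [ih (J.erase j) ?_, mul_zero]
    rw [card_erase_of_mem hj]
    rw [List.length_cons] at h
    have : 0 < J.card := card_pos.2 ⟨j, hj⟩
    omega

/-- the exponent of the largest term -/
private noncomputable def LKc_top (B : ℕ) : List ℕ → Finset ℕ → ℕ
  | [], _ => 0
  | a :: l, J => if h : J.Nonempty then a * B ^ (J.max' h) + LKc_top B l (J.erase (J.max' h)) else 0

private theorem LKc_top_cons (B a : ℕ) (l : List ℕ) (J : Finset ℕ) (h : J.Nonempty) :
    LKc_top B (a :: l) J = a * B ^ (J.max' h) + LKc_top B l (J.erase (J.max' h)) := by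
  rw [LKc_top, dif_pos h]

private theorem LKc_exch (B : ℕ) (hB : 2 ≤ B) (l : List ℕ) :
    ∀ (a : ℕ) (J : Finset ℕ) (j : ℕ), (a :: l).Pairwise (· > ·) → j ∈ J →
      a * B ^ j + LKc_top B l (J.erase j) ≤ LKc_top B (a :: l) J := by
  induction l with
  | nil =>
    intro a J j _ hj
    rw [LKc_top_cons B a [] J ⟨j, hj⟩]
    simp only [LKc_top, add_zero]
    exact Nat.mul_le_mul_left _ (Nat.pow_le_pow_right (by omega) (le_max' J j hj))
  | cons b l ih =>
    intro a J j hl hj
    have hJ : J.Nonempty := ⟨j, hj⟩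
    rw [LKc_top_cons B a (b :: l) J hJ]
    set M := J.max' hJ with hM
    have hMJ : M ∈ J := max'_mem J hJ
    rcases eq_or_ne j M with e | e
    · rw [e]
    · have hjM : j < M := lt_of_le_of_ne (le_max' J j hj) e
      have hMj : M ∈ J.erase j := mem_erase.2 ⟨e.symm, hMJ⟩
      have hne : (J.erase j).Nonempty := ⟨M, hMj⟩
      have hmax : (J.erase j).max' hne = M := by
        apply le_antisymm
        · exact max'_le _ _ _ fun y hy => le_max' J y (mem_of_mem_erase hy)
        · exact le_max' _ _ hMj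
      rw [LKc_top_cons B b l (J.erase j) hne, hmax]
      have hjJ : j ∈ J.erase M := mem_erase.2 ⟨e, hj⟩
      have h1 := ih b (J.erase M) j (List.Pairwise.of_cons hl) hjJ
      have hab : b < a := (List.pairwise_cons.1 hl).1 b (by simp)
      have hpow : B ^ j ≤ B ^ M := Nat.pow_le_pow_right (by omega) hjM.le
      rw [erase_right_comm] at h1
      have h2 : a * B ^ j + b * B ^ M ≤ a * B ^ M + b * B ^ j := by
        obtain ⟨c, rfl⟩ : ∃ c, a = b + c := ⟨a - b, by omega⟩
        have := Nat.mul_le_mul_left c hpow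
        nlinarith
      omega

private theorem LKc_ratio (u v : ℝ) (hu : 0 < u) (hv : 2 * u ≤ v) :
    |(v + u) / (v - u)| ≤ 3 ∧ |(u + v) / (u - v)| ≤ 3 := by
  have h1 : 0 < v - u := by linarith
  have h2 : |(v + u) / (v - u)| ≤ 3 := by
    rw [abs_of_nonneg (div_nonneg (by linarith) h1.le), div_le_iff₀ h1]
    linarith
  refine ⟨h2, ?_⟩
  have : (u + v) / (u - v) = -((v + u) / (v - u)) := by
    rw [← div_neg, neg_sub, add_comm]
  rw [this, abs_neg]
  exact h2

private theorem LKc_lt (B : ℕ) (hB : 2 ≤ B) (T : ℝ) (hT : 2 ≤ T) {i j : ℕ} (h : i < j) :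
    2 * T ^ (B ^ i) ≤ T ^ (B ^ j) := by
  have h1 : B ^ i + 1 ≤ B ^ j := Nat.pow_lt_pow_right (by omega) h
  calc 2 * T ^ (B ^ i) ≤ T * T ^ (B ^ i) := by
        apply mul_le_mul_of_nonneg_right hT (by positivity)
    _ = T ^ (B ^ i + 1) := by rw [pow_succ]; ring
    _ ≤ T ^ (B ^ j) := pow_le_pow_right₀ (by linarith) h1

private theorem LKc_cj (N B : ℕ) (hB : 2 ≤ B) (T : ℝ) (hT : 2 ≤ T) (J : Finset ℕ)
    (hJ : J ⊆ range N) (j : ℕ) : |cj (fun j => T ^ (B ^ j)) J j| ≤ 3 ^ N := by
  rw [cj, abs_prod]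
  have h1 : ∀ i ∈ J.erase j, |(T ^ (B ^ j) + T ^ (B ^ i)) / (T ^ (B ^ j) - T ^ (B ^ i))| ≤ 3 := by
    intro i hi
    have hij : i ≠ j := ne_of_mem_erase hi
    rcases lt_or_gt_of_ne hij with h | h
    · exact (LKc_ratio _ _ (by positivity) (LKc_lt B hB T hT h)).1
    · exact (LKc_ratio _ _ (by positivity) (LKc_lt B hB T hT h)).2
  calc ∏ i ∈ J.erase j, |(T ^ (B ^ j) + T ^ (B ^ i)) / (T ^ (B ^ j) - T ^ (B ^ i))|
      ≤ ∏ i ∈ J.erase j, (3 : ℝ) := prod_le_prod (fun i _ => abs_nonneg _) h1
    _ = 3 ^ (J.erase j).card := by rw [prod_const]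
    _ ≤ 3 ^ N := by
        apply pow_le_pow_right₀ (by norm_num)
        calc (J.erase j).card ≤ J.card := card_le_card (erase_subset _ _)
          _ ≤ (range N).card := card_le_card hJ
          _ = N := card_range N

private theorem LKc_main (N B : ℕ) (hB : 2 ≤ B) (T : ℝ) (hT : 2 ≤ T) (l : List ℕ) :
    ∀ J : Finset ℕ, J ⊆ range N → l.Pairwise (· > ·) →
      |P (fun j => T ^ (B ^ j)) l J| ≤ ((N : ℝ) * 3 ^ N) ^ l.length * T ^ LKc_top B l J := by
  induction l with
  | nil =>
    intro J _ _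
    simp [P, LKc_top]
  | cons a l ih =>
    intro J hJ hl
    rw [P_cons]
    have hT0 : (0 : ℝ) < T := by linarith
    have hcard : (J.card : ℝ) ≤ N := by
      have := card_le_card hJ
      rw [card_range] at this
      exact_mod_cast this
    calc |∑ j ∈ J, (T ^ (B ^ j)) ^ a * cj (fun j => T ^ (B ^ j)) J j *
          P (fun j => T ^ (B ^ j)) l (J.erase j)|
        ≤ ∑ j ∈ J, |(T ^ (B ^ j)) ^ a * cj (fun j => T ^ (B ^ j)) J j *
          P (fun j => T ^ (B ^ j)) l (J.erase j)| := abs_sum_le_sum_abs _ _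
      _ ≤ ∑ j ∈ J, 3 ^ N * (((N : ℝ) * 3 ^ N) ^ l.length * T ^ LKc_top B (a :: l) J) := by
          refine sum_le_sum fun j hj => ?_
          rw [abs_mul, abs_mul, abs_of_nonneg (by positivity : (0 : ℝ) ≤ (T ^ (B ^ j)) ^ a)]
          have h1 := ih (J.erase j) ((erase_subset _ _).trans hJ) (List.Pairwise.of_cons hl)
          have h2 := LKc_cj N B hB T hT J hJ j
          have h3 : T ^ (a * B ^ j + LKc_top B l (J.erase j)) ≤ T ^ LKc_top B (a :: l) J :=
            pow_le_pow_right₀ (by linarith) (LKc_exch B hB l a J j hl hj)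
          have e1 : (T ^ (B ^ j)) ^ a = T ^ (a * B ^ j) := by rw [← pow_mul, mul_comm]
          rw [e1]
          calc T ^ (a * B ^ j) * |cj (fun j => T ^ (B ^ j)) J j| *
                |P (fun j => T ^ (B ^ j)) l (J.erase j)|
              ≤ T ^ (a * B ^ j) * 3 ^ N *
                (((N : ℝ) * 3 ^ N) ^ l.length * T ^ LKc_top B l (J.erase j)) := by
                apply mul_le_mul _ h1 (abs_nonneg _) (by positivity)
                exact mul_le_mul_of_nonneg_left h2 (by positivity)
            _ = 3 ^ N * (((N : ℝ) * 3 ^ N) ^ l.length *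
                T ^ (a * B ^ j + LKc_top B l (J.erase j))) := by rw [pow_add]; ring
            _ ≤ _ := by
                apply mul_le_mul_of_nonneg_left _ (by positivity)
                exact mul_le_mul_of_nonneg_left h3 (by positivity)
      _ = (J.card : ℝ) * (3 ^ N * (((N : ℝ) * 3 ^ N) ^ l.length * T ^ LKc_top B (a :: l) J)) := by
          rw [sum_const, nsmul_eq_mul]
      _ ≤ (N : ℝ) * (3 ^ N * (((N : ℝ) * 3 ^ N) ^ l.length * T ^ LKc_top B (a :: l) J)) :=
          mul_le_mul_of_nonneg_right hcard (by positivity)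
      _ = _ := by rw [List.length_cons, pow_succ]; ring

private theorem LKc_top_range (B : ℕ) (l : List ℕ) : ∀ N : ℕ, l.length ≤ N →
    LKc_top B l (range N) = wt B N l := by
  induction l with
  | nil => intro N _; rfl
  | cons a l ih =>
    intro N hN
    rw [List.length_cons] at hN
    obtain ⟨M, rfl⟩ : ∃ M, N = M + 1 := ⟨N - 1, by omega⟩
    have hne : (range (M + 1)).Nonempty := ⟨0, by simp⟩
    have hmax : (range (M + 1)).max' hne = M := by
      apply le_antisymm
      · exact max'_le _ _ _ fun y hy => by rw [mem_range] at hy; omega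
      · exact le_max' _ _ (by simp)
    rw [LKc_top_cons B a l _ hne, hmax]
    have he : (range (M + 1)).erase M = range M := by
      ext i
      simp only [mem_erase, mem_range]
      omega
    rw [he, ih M (by omega), wt, Nat.add_sub_cancel]

theorem P_bound (l : List ℕ) (hl : l.Pairwise (· > ·)) (N B : ℕ) (hB : 2 ≤ B)
    (hN : l.length ≤ N) :
    ∃ C : ℝ, ∀ T : ℝ, 2 ≤ T → |P (fun j => T ^ (B ^ j)) l (range N)| ≤ C * T ^ wt B N l := by
  refine ⟨((N : ℝ) * 3 ^ N) ^ l.length, fun T hT => ?_⟩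
  rw [← LKc_top_range B l N hN]
  exact LKc_main N B hB T hT l (range N) (Subset.refl _) hl

end Pool.H53.RQ
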