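import Pool.Agent.H53.RQ.LKb
import Pool.Agent.H53.RQ.LKc

/-!
# LKd : abstract identification of a family with the Schur P polynomials

COMPLETE PROOF. Data: functions `M ν x J` (`ν` a list), multisets `Z α` of lists with
(Z1) `h_α(J) = ∑_{ν ∈ Z α} M ν x J` for all good `x`, `J`; (Z2) every `ν ∈ Z α` is strict, has the sum of `α`
and dominates `α`; (Z3) `l` occurs exactly once in `Z l` for strict `l`; (M) at the points `x_j = T^(B^j)`,
`J = range N`: `T^(wt B N ν) ≤ M ν ≤ C T^(wt B N ν)` for `T ≥ 2`, whenever `len ν ≤ N`, `ν` strict.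
CLAIM: `P x l J = M l x J` for all strict `l` and good `x`, `J`.

(1) `wt_lt`: if `ν`, `l` are strict lists, `len ν, len l ≤ N`, same sum `n`, `B > n` (or `B ≥ 2`),
`Dom ν l` and `ν ≠ l`, then `wt B N l < wt B N ν`. Abel summation: `wt B N l = ∑_{k=1}^{N} s_k(l) (B^(N-k) -
B^(N-k-1))` with `s_k` = sum of the first `k` entries (and the last difference replaced by `B^0`), all
coefficients are positive for `B ≥ 2`, `s_k(ν) ≥ s_k(l)` with at least one strict inequality since `ν ≠ l`.
(Induction on `N` also works: allow a carry: for `ν_1 = l_1 + d` the rest of `ν` with `d` added to the first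
partial sums still dominates.)
(2) `wt_inj`: strict lists with entries `≤ n < B`, lengths `≤ N` and the same `wt B N` are equal (digits in
base `B`; a shorter list is the same as a list filled with zeros, entries of strict lists are positive).
(3) By `P_expand`: `P x l J = h_l(J) + ∑_{(z,α) ∈ L} z h_α(J)`, by (Z1) `= ∑_ν d(ν) M ν x J` with
`d(ν) = count ν (Z l) + ∑_{(z,α) ∈ L} z count ν (Z α)`, a finite sum over a finite set `S` of strict lists `ν` of
sum `n = l.sum` which dominate `l` (`Dom ν α` and `Dom α l`). `d(l) = 1`: `count l (Z l) = 1`, and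
`count l (Z α) = 0` for `(z,α) ∈ L`, because `Dom l α`, `Dom α l` and equal lengths give `α = l`
(equal partial sums), excluded.
(4) Suppose `d(ν) ≠ 0` for some `ν ≠ l`. Put `N = n` (every strict list of sum `n` has length `≤ n`),
`B = n + 2`. Among these `ν` take `μ` with `wt B N μ` maximal. By (1) `wt l < wt μ`, by (2) all other `ν` with
`d(ν) ≠ 0`, `ν ≠ μ` have `wt ν < wt μ`. At `x_j = T^(B^j)`, `J = range N` (good for `T ≥ 2`):
`T^(wt μ) ≤ |d(μ)| M μ ≤ |P l| + ∑_{ν ≠ μ} |d(ν)| M ν ≤ C' T^(wt μ - 1)` for all `T ≥ 2` (`|d(μ)| ≥ 1`, it is an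
integer), a contradiction for `T > C'`. So `P x l J = d(l) M l x J = M l x J`. QED
(`n = 0`: `l = []`; the argument works as it stands, or treat it separately: `Dom ν []` and sum `0`
force `ν = []`.)
-/

set_option autoImplicit false

open Finset

namespace Pool.H53.RQ

private theorem lkd_wt_le (B : ℕ) (hB : 2 ≤ B) (l : List ℕ) : ∀ (N : ℕ) (ν : List ℕ) (d : ℕ),
    l.length ≤ N → (∀ k, (l.take k).sum ≤ d + (ν.take k).sum) →
    wt B N l ≤ d * B ^ (N - 1) + wt B N ν := by
  induction l with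
  | nil => intro N ν d _ _; rw [wt]; exact Nat.zero_le _
  | cons a l ih =>
    intro N ν d hN hd
    rw [List.length_cons] at hN
    have hmono : B ^ (N - 1 - 1) ≤ B ^ (N - 1) := Nat.pow_le_pow_right (by omega) (by omega)
    rcases ν with _ | ⟨c, ν⟩
    · have h1 := hd 1
      simp only [List.take_succ_cons, List.take_zero, List.sum_cons, List.sum_nil, List.take_nil] at h1
      have h2 := ih (N - 1) [] (d - a) (by omega) (fun k => by
        have := hd (k + 1)
        simp only [List.take_succ_cons, List.sum_cons, List.sum_nil, List.take_nil] at this ⊢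
        omega)
      rw [wt] at h2 ⊢
      rw [wt]
      have h3 : (d - a) * B ^ (N - 1 - 1) ≤ (d - a) * B ^ (N - 1) := Nat.mul_le_mul_left _ hmono
      have h4 : a * B ^ (N - 1) + (d - a) * B ^ (N - 1) = d * B ^ (N - 1) := by
        rw [← add_mul]; congr 1; omega
      omega
    · have h1 := hd 1
      simp only [List.take_succ_cons, List.take_zero, List.sum_cons, List.sum_nil] at h1
      have h2 := ih (N - 1) ν (d + c - a) (by omega) (fun k => by
        have := hd (k + 1)
        simp only [List.take_succ_cons, List.sum_cons] at this ⊢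
        omega)
      rw [wt, wt]
      have h3 : (d + c - a) * B ^ (N - 1 - 1) ≤ (d + c - a) * B ^ (N - 1) :=
        Nat.mul_le_mul_left _ hmono
      have h4 : a * B ^ (N - 1) + (d + c - a) * B ^ (N - 1) = d * B ^ (N - 1) + c * B ^ (N - 1) := by
        rw [← add_mul, ← add_mul]; congr 1; omega
      omega

theorem wt_lt (B N : ℕ) (hB : 2 ≤ B) (ν l : List ℕ) (hν : ν.length ≤ N) (hl : l.length ≤ N)
    (hlpos : ∀ a ∈ l, 0 < a) (hνpos : ∀ a ∈ ν, 0 < a)
    (hs : ν.sum = l.sum) (hd : Dom ν l) (hne : ν ≠ l) : wt B N l < wt B N ν := by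
  induction l generalizing N ν with
  | nil =>
    rcases ν with _ | ⟨c, ν⟩
    · exact absurd rfl hne
    · have := hνpos c (by simp)
      simp only [List.sum_cons, List.sum_nil] at hs
      omega
  | cons a l ih =>
    rcases ν with _ | ⟨c, ν⟩
    · have := hlpos a (by simp)
      simp only [List.sum_cons, List.sum_nil] at hs
      omega
    · rw [List.length_cons] at hν hl
      rw [List.sum_cons, List.sum_cons] at hs
      have h1 := hd 1
      simp only [List.take_succ_cons, List.take_zero, List.sum_cons, List.sum_nil] at h1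
      rw [wt, wt]
      rcases Nat.lt_or_ge a c with hac | hac
      · have h2 := lkd_wt_le B hB l (N - 1) ν (c - a) (by omega) (fun k => by
          have := hd (k + 1)
          simp only [List.take_succ_cons, List.sum_cons] at this ⊢
          omega)
        have hl0 : 0 < l.length := by
          rcases l with _ | ⟨b, l⟩
          · simp only [List.sum_nil] at hs
            omega
          · simp
        have h3 : B ^ (N - 1 - 1) < B ^ (N - 1) := Nat.pow_lt_pow_right (by omega) (by omega)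
        have h4 : (c - a) * B ^ (N - 1 - 1) < (c - a) * B ^ (N - 1) :=
          Nat.mul_lt_mul_of_pos_left h3 (by omega)
        have h5 : a * B ^ (N - 1) + (c - a) * B ^ (N - 1) = c * B ^ (N - 1) := by
          rw [← add_mul]; congr 1; omega
        omega
      · have hac' : a = c := by omega
        subst hac'
        have h2 := ih (N - 1) ν (by omega) (by omega) (fun b hb => hlpos b (List.mem_cons_of_mem _ hb))
          (fun b hb => hνpos b (List.mem_cons_of_mem _ hb)) (by omega) (fun k => by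
            have := hd (k + 1)
            simp only [List.take_succ_cons, List.sum_cons] at this ⊢
            omega) (fun h => hne (by rw [h]))
        omega

private theorem lkd_wt_pow (B n : ℕ) (hB : n < B) (l : List ℕ) : ∀ N : ℕ, l.length ≤ N →
    (∀ a ∈ l, a ≤ n) → wt B N l < B ^ N := by
  induction l with
  | nil => intro N _ _; rw [wt]; exact Nat.pow_pos (by omega)
  | cons a l ih =>
    intro N hN ha
    rw [List.length_cons] at hN
    obtain ⟨N, rfl⟩ : ∃ N', N = N' + 1 := ⟨N - 1, by omega⟩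
    rw [wt, Nat.add_sub_cancel]
    have h1 := ih N (by omega) (fun b hb => ha b (List.mem_cons_of_mem _ hb))
    have h2 : a ≤ n := ha a (by simp)
    have h3 : (a + 1) * B ^ N ≤ B * B ^ N := Nat.mul_le_mul_right _ (by omega)
    rw [pow_succ, mul_comm (B ^ N) B]
    rw [add_mul, one_mul] at h3
    omega

theorem wt_inj (B N n : ℕ) (hB : n < B) (ν l : List ℕ) (hν : ν.length ≤ N) (hl : l.length ≤ N)
    (hνp : ∀ a ∈ ν, 0 < a ∧ a ≤ n) (hlp : ∀ a ∈ l, 0 < a ∧ a ≤ n)
    (h : wt B N ν = wt B N l) : ν = l := by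
  induction l generalizing N ν with
  | nil =>
    rcases ν with _ | ⟨c, ν⟩
    · rfl
    · have h1 := (hνp c (by simp)).1
      rw [wt, wt] at h
      have h2 : 0 < c * B ^ (N - 1) := Nat.mul_pos h1 (Nat.pow_pos (by omega))
      omega
  | cons a l ih =>
    rcases ν with _ | ⟨c, ν⟩
    · have h1 := (hlp a (by simp)).1
      rw [wt, wt] at h
      have h2 : 0 < a * B ^ (N - 1) := Nat.mul_pos h1 (Nat.pow_pos (by omega))
      omega
    · rw [List.length_cons] at hν hl
      rw [wt, wt] at h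
      have h1 := lkd_wt_pow B n hB l (N - 1) (by omega)
        (fun b hb => (hlp b (List.mem_cons_of_mem _ hb)).2)
      have h2 := lkd_wt_pow B n hB ν (N - 1) (by omega)
        (fun b hb => (hνp b (List.mem_cons_of_mem _ hb)).2)
      have h0 : 0 < B ^ (N - 1) := Nat.pow_pos (by omega)
      have hca : c = a := by
        have e1 : (c * B ^ (N - 1) + wt B (N - 1) ν) / B ^ (N - 1) = c := by
          rw [mul_comm, Nat.mul_add_div h0, Nat.div_eq_of_lt h2, add_zero]
        have e2 : (a * B ^ (N - 1) + wt B (N - 1) l) / B ^ (N - 1) = a := by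
          rw [mul_comm, Nat.mul_add_div h0, Nat.div_eq_of_lt h1, add_zero]
        rw [← e1, ← e2, h]
      subst hca
      have h3 := ih (N - 1) ν (by omega) (by omega) (fun b hb => hνp b (List.mem_cons_of_mem _ hb))
        (fun b hb => hlp b (List.mem_cons_of_mem _ hb)) (by omega)
      rw [h3]

private theorem lkd_dom (l : List ℕ) : ∀ α : List ℕ, α.length = l.length → Dom α l → Dom l α →
    α = l := by
  induction l with
  | nil =>
    intro α h _ _
    exact List.length_eq_zero_iff.1 h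
  | cons a l ih =>
    intro α h h1 h2
    rcases α with _ | ⟨c, α⟩
    · simp at h
    · have e1 := h1 1
      have e2 := h2 1
      simp only [List.take_succ_cons, List.take_zero, List.sum_cons, List.sum_nil] at e1 e2
      have hca : c = a := by omega
      subst hca
      rw [ih α (by simpa using h) (fun k => by
        have := h1 (k + 1)
        simp only [List.take_succ_cons, List.sum_cons] at this
        omega) (fun k => by
        have := h2 (k + 1)
        simp only [List.take_succ_cons, List.sum_cons] at this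
        omega)]

private theorem lkd_length (l : List ℕ) (h : ∀ a ∈ l, 0 < a) : l.length ≤ l.sum := by
  induction l with
  | nil => simp
  | cons a l ih =>
    have h1 := ih (fun b hb => h b (List.mem_cons_of_mem _ hb))
    have h2 := h a (by simp)
    simp only [List.length_cons, List.sum_cons]
    omega

private theorem lkd_growth {ι : Type*} [DecidableEq ι] (S : Finset ι) (d : ι → ℤ)
    (f : ι → ℝ → ℝ) (w : ι → ℕ) (p : ℝ → ℝ) (w0 : ℕ)
    (hf1 : ∀ ν ∈ S, ∀ T : ℝ, 2 ≤ T → T ^ w ν ≤ f ν T)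
    (hf2 : ∀ ν ∈ S, ∃ C : ℝ, ∀ T : ℝ, 2 ≤ T → f ν T ≤ C * T ^ w ν)
    (hp : ∃ C : ℝ, ∀ T : ℝ, 2 ≤ T → |p T| ≤ C * T ^ w0)
    (heq : ∀ T : ℝ, 2 ≤ T → p T = ∑ ν ∈ S, (d ν : ℝ) * f ν T)
    (μ : ι) (hμ : μ ∈ S) (hw0 : w0 < w μ)
    (hmax : ∀ ν ∈ S, ν ≠ μ → d ν ≠ 0 → w ν < w μ) : d μ = 0 := by
  by_contra hd
  have hC : ∃ C : ι → ℝ, ∀ ν ∈ S, ∀ T : ℝ, 2 ≤ T → f ν T ≤ C ν * T ^ w ν := by
    classical
    refine ⟨fun ν => if h : ν ∈ S then (hf2 ν h).choose else 0, fun ν hν T hT => ?_⟩
    simp only [dif_pos hν]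
    exact (hf2 ν hν).choose_spec T hT
  obtain ⟨C, hC⟩ := hC
  obtain ⟨C0, hC0⟩ := hp
  set C' : ℝ := |C0| + ∑ ν ∈ S.erase μ, |(d ν : ℝ)| * |C ν| with hC'
  have key : ∀ T : ℝ, 2 ≤ T → T ^ w μ ≤ C' * T ^ (w μ - 1) := by
    intro T hT
    have hT1 : (1 : ℝ) ≤ T := by linarith
    have hT0 : (0 : ℝ) < T := by linarith
    have h1 := heq T hT
    rw [← add_sum_erase S _ hμ] at h1
    have h2 : |(d μ : ℝ)| * f μ T = |p T - ∑ ν ∈ S.erase μ, (d ν : ℝ) * f ν T| := by
      have h3 : 0 ≤ f μ T := le_trans (pow_nonneg hT0.le _) (hf1 μ hμ T hT)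
      rw [h1, add_sub_cancel_right, abs_mul, abs_of_nonneg h3]
    have hd1 : (1 : ℝ) ≤ |(d μ : ℝ)| := by
      rw [← Int.cast_abs]
      exact_mod_cast Int.one_le_abs hd
    have h4 : T ^ w μ ≤ |(d μ : ℝ)| * f μ T := by
      have h5 := hf1 μ hμ T hT
      have h6 : 0 ≤ f μ T := le_trans (pow_nonneg hT0.le _) h5
      calc T ^ w μ ≤ f μ T := h5
        _ = 1 * f μ T := (one_mul _).symm
        _ ≤ |(d μ : ℝ)| * f μ T := mul_le_mul_of_nonneg_right hd1 h6
    rw [h2] at h4
    have h7 : |p T - ∑ ν ∈ S.erase μ, (d ν : ℝ) * f ν T|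
        ≤ |p T| + ∑ ν ∈ S.erase μ, |(d ν : ℝ)| * |f ν T| := by
      refine (abs_sub _ _).trans ?_
      refine add_le_add le_rfl ?_
      refine (abs_sum_le_sum_abs _ _).trans (le_of_eq ?_)
      exact sum_congr rfl fun ν _ => abs_mul _ _
    have h8 : |p T| ≤ |C0| * T ^ (w μ - 1) := by
      calc |p T| ≤ C0 * T ^ w0 := hC0 T hT
        _ ≤ |C0| * T ^ w0 := mul_le_mul_of_nonneg_right (le_abs_self _) (pow_nonneg hT0.le _)
        _ ≤ |C0| * T ^ (w μ - 1) :=
          mul_le_mul_of_nonneg_left (pow_le_pow_right₀ hT1 (by omega)) (abs_nonneg _)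
    have h9 : ∑ ν ∈ S.erase μ, |(d ν : ℝ)| * |f ν T|
        ≤ ∑ ν ∈ S.erase μ, |(d ν : ℝ)| * |C ν| * T ^ (w μ - 1) := by
      apply sum_le_sum
      intro ν hν
      have hνS := mem_of_mem_erase hν
      have hνμ := ne_of_mem_erase hν
      by_cases hdν : d ν = 0
      · simp [hdν]
      · rw [mul_assoc]
        apply mul_le_mul_of_nonneg_left _ (abs_nonneg _)
        have h10 : 0 ≤ f ν T := le_trans (pow_nonneg hT0.le _) (hf1 ν hνS T hT)
        rw [abs_of_nonneg h10]
        calc f ν T ≤ C ν * T ^ w ν := hC ν hνS T hT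
          _ ≤ |C ν| * T ^ w ν := mul_le_mul_of_nonneg_right (le_abs_self _) (pow_nonneg hT0.le _)
          _ ≤ |C ν| * T ^ (w μ - 1) :=
            mul_le_mul_of_nonneg_left
              (pow_le_pow_right₀ hT1 (by have := hmax ν hνS hνμ hdν; omega)) (abs_nonneg _)
    rw [← sum_mul] at h9
    rw [hC', add_mul]
    linarith
  have hCn : 0 ≤ C' := by
    rw [hC']
    exact add_nonneg (abs_nonneg _) (sum_nonneg fun ν _ => mul_nonneg (abs_nonneg _) (abs_nonneg _))
  have h1 := key (C' + 2) (by linarith)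
  have h2 : (C' + 2) ^ w μ = (C' + 2) * (C' + 2) ^ (w μ - 1) := by
    rw [← pow_succ', Nat.sub_add_cancel (by omega)]
  rw [h2] at h1
  have h3 : 0 < (C' + 2) ^ (w μ - 1) := pow_pos (by linarith) _
  have h4 := le_of_mul_le_mul_right h1 h3
  linarith

private theorem lkd_count (Z : Multiset (List ℕ)) (S : Finset (List ℕ)) (hS : Z.toFinset ⊆ S)
    (f : List ℕ → ℝ) : (Z.map f).sum = ∑ ν ∈ S, ((Z.count ν : ℕ) : ℝ) * f ν := by
  rw [Finset.sum_multiset_map_count]
  rw [← sum_subset hS]
  · exact sum_congr rfl fun ν _ => by rw [nsmul_eq_mul]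
  · intro ν _ hν
    have : Z.count ν = 0 := Multiset.count_eq_zero.2 fun h => hν (Multiset.mem_toFinset.2 h)
    rw [this]
    simp

private theorem lkd_list (L : List (ℤ × List ℕ)) (Z : List ℕ → Multiset (List ℕ))
    (S : Finset (List ℕ)) (hS : ∀ p ∈ L, (Z p.2).toFinset ⊆ S) (f : List ℕ → ℝ) :
    (L.map fun p => (p.1 : ℝ) * ((Z p.2).map f).sum).sum
      = ∑ ν ∈ S, (((L.map fun p => p.1 * ((Z p.2).count ν : ℤ)).sum : ℤ) : ℝ) * f ν := by
  induction L with
  | nil => simp
  | cons p L ih =>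
    rw [List.map_cons, List.sum_cons, ih (fun p' hp' => hS p' (List.mem_cons_of_mem _ hp')),
      lkd_count (Z p.2) S (hS p (by simp)) f, mul_sum, ← sum_add_distrib]
    apply sum_congr rfl
    intro ν _
    rw [List.map_cons, List.sum_cons]
    push_cast
    ring

private theorem lkd_good (B N : ℕ) (hB : 2 ≤ B) (T : ℝ) (hT : 2 ≤ T) :
    Good (fun j => T ^ (B ^ j)) (range N) := by
  refine ⟨fun i _ => pow_pos (by linarith) _, ?_⟩
  intro i _ j _ h
  have h1 : B ^ i = B ^ j := by
    have h0 : Function.Injective fun n : ℕ => T ^ n :=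
      pow_right_injective₀ (by linarith) (by linarith)
    exact h0 h
  exact Nat.pow_right_injective hB h1

theorem link_abs (M : List ℕ → (ℕ → ℝ) → Finset ℕ → ℝ) (Z : List ℕ → Multiset (List ℕ))
    (hZ1 : ∀ α x J, Good x J → ha x α J = ((Z α).map fun ν => M ν x J).sum)
    (hZ2 : ∀ α, ∀ ν ∈ Z α, StrictL ν ∧ ν.sum = α.sum ∧ Dom ν α)
    (hZ3 : ∀ l, StrictL l → (Z l).count l = 1)
    (hM : ∀ ν, StrictL ν → ∀ N B : ℕ, ν.length ≤ N → ν.sum < B → 2 ≤ B →
      (∀ T : ℝ, 2 ≤ T → T ^ wt B N ν ≤ M ν (fun j => T ^ (B ^ j)) (range N)) ∧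
      ∃ C : ℝ, ∀ T : ℝ, 2 ≤ T → M ν (fun j => T ^ (B ^ j)) (range N) ≤ C * T ^ wt B N ν)
    (l : List ℕ) (hl : StrictL l) (x : ℕ → ℝ) (J : Finset ℕ) (hx : Good x J) :
    P x l J = M l x J := by
  classical
  obtain ⟨L, hL1, hL2⟩ := P_expand l hl.2
  set S : Finset (List ℕ) := (Z l).toFinset ∪ (L.toFinset.biUnion fun p => (Z p.2).toFinset)
    with hSdef
  have hS1 : (Z l).toFinset ⊆ S := subset_union_left
  have hS2 : ∀ p ∈ L, (Z p.2).toFinset ⊆ S := by
    intro p hp
    refine Subset.trans ?_ subset_union_right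
    exact subset_biUnion_of_mem (fun p : ℤ × List ℕ => (Z p.2).toFinset) (List.mem_toFinset.2 hp)
  set d : List ℕ → ℤ := fun ν => ((Z l).count ν : ℤ)
    + (L.map fun p => p.1 * ((Z p.2).count ν : ℤ)).sum with hddef
  have hexp : ∀ (x : ℕ → ℝ) (J : Finset ℕ), Good x J →
      P x l J = ∑ ν ∈ S, (d ν : ℝ) * M ν x J := by
    intro x J hx
    rw [hL2 x J hx, hZ1 l x J hx]
    have h1 : (L.map fun p => (p.1 : ℝ) * ha x p.2 J)
        = L.map fun p => (p.1 : ℝ) * ((Z p.2).map fun ν => M ν x J).sum :=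
      List.map_congr_left fun p _ => by rw [hZ1 p.2 x J hx]
    rw [h1, lkd_list L Z S hS2 (fun ν => M ν x J), lkd_count (Z l) S hS1 (fun ν => M ν x J),
      ← sum_add_distrib]
    apply sum_congr rfl
    intro ν _
    rw [hddef]
    push_cast
    ring
  have hSprop : ∀ ν ∈ S, StrictL ν ∧ ν.sum = l.sum ∧ Dom ν l := by
    intro ν hν
    rw [hSdef, mem_union] at hν
    rcases hν with hν | hν
    · exact hZ2 l ν (Multiset.mem_toFinset.1 hν)
    · obtain ⟨p, hp, hν⟩ := mem_biUnion.1 hν
      obtain ⟨h1, h2, h3⟩ := hZ2 p.2 ν (Multiset.mem_toFinset.1 hν)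
      obtain ⟨h4, h5, h6, _⟩ := hL1 p (List.mem_toFinset.1 hp)
      exact ⟨h1, h2.trans h5, fun k => (h6 k).trans (h3 k)⟩
  have hlS : l ∈ S := hS1 (Multiset.mem_toFinset.2 (Multiset.count_pos.1 (by rw [hZ3 l hl]; omega)))
  have hdl : d l = 1 := by
    rw [hddef]
    simp only
    rw [hZ3 l hl]
    have h0 : (L.map fun p => p.1 * ((Z p.2).count l : ℤ)).sum = 0 := by
      apply List.sum_eq_zero
      intro z hz
      obtain ⟨p, hp, rfl⟩ := List.mem_map.1 hz
      obtain ⟨h4, h5, h6, h7⟩ := hL1 p hp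
      have : (Z p.2).count l = 0 := by
        apply Multiset.count_eq_zero.2
        intro hmem
        exact h7 (lkd_dom l p.2 h4 h6 (hZ2 p.2 l hmem).2.2)
      rw [this]
      simp
    rw [h0]
    simp
  -- all other coefficients vanish
  have hzero : ∀ ν ∈ S, ν ≠ l → d ν = 0 := by
    by_contra hcon
    push Not at hcon
    obtain ⟨ν0, hν0S, hν0l, hν0d⟩ := hcon
    set N := l.sum with hN
    set B := l.sum + 2 with hB
    set R := S.filter fun ν => ν ≠ l ∧ d ν ≠ 0 with hR
    have hRne : R.Nonempty := ⟨ν0, mem_filter.2 ⟨hν0S, hν0l, hν0d⟩⟩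
    obtain ⟨μ, hμR, hμmax⟩ := exists_max_image R (fun ν => wt B N ν) hRne
    rw [hR, mem_filter] at hμR
    obtain ⟨hμS, hμl, hμd⟩ := hμR
    obtain ⟨hμst, hμsum, hμdom⟩ := hSprop μ hμS
    have hlen : ∀ ν ∈ S, ν.length ≤ N := by
      intro ν hν
      obtain ⟨h1, h2, _⟩ := hSprop ν hν
      exact (lkd_length ν h1.2).trans (by rw [h2])
    have hent : ∀ ν ∈ S, ∀ a ∈ ν, 0 < a ∧ a ≤ N := by
      intro ν hν a ha
      obtain ⟨h1, h2, _⟩ := hSprop ν hν
      exact ⟨h1.2 a ha, (List.single_le_sum (fun b _ => Nat.zero_le b) a ha).trans (by rw [h2])⟩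
    have hlt : wt B N l < wt B N μ :=
      wt_lt B N (by omega) μ l (hlen μ hμS) (hlen l hlS) hl.2 hμst.2 hμsum hμdom hμl
    apply hμd
    refine lkd_growth S d (fun ν T => M ν (fun j => T ^ (B ^ j)) (range N)) (fun ν => wt B N ν)
      (fun T => P (fun j => T ^ (B ^ j)) l (range N)) (wt B N l) ?_ ?_ ?_ ?_ μ hμS hlt ?_
    · intro ν hν T hT
      obtain ⟨h1, h2, _⟩ := hSprop ν hν
      exact (hM ν h1 N B (hlen ν hν) (by omega) (by omega)).1 T hT
    · intro ν hν
      obtain ⟨h1, h2, _⟩ := hSprop ν hν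
      exact (hM ν h1 N B (hlen ν hν) (by omega) (by omega)).2
    · exact P_bound l hl.1 N B (by omega) (hlen l hlS)
    · intro T hT
      exact hexp _ _ (lkd_good B N (by omega) T hT)
    · intro ν hν hνμ hνd
      by_cases hνl : ν = l
      · rw [hνl]; exact hlt
      · have h1 := hμmax ν (by rw [hR, mem_filter]; exact ⟨hν, hνl, hνd⟩)
        refine lt_of_le_of_ne h1 ?_
        intro h2
        exact hνμ (wt_inj B N N (by omega) ν μ (hlen ν hν) (hlen μ hμS) (hent ν hν) (hent μ hμS) h2)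
  rw [hexp x J hx, sum_eq_single_of_mem l hlS (fun ν hν hνl => by rw [hzero ν hν hνl]; simp), hdl]
  simp

end Pool.H53.RQ
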