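import Pool.Agent.H53.RQ.Defs

set_option autoImplicit false

open Finset

namespace Pool.H53.RQ

/-- Part (A): expansion of the window functions in Schur P polynomials. -/
theorem partA (q : ℝ) (hq0 : 0 < q) (hq1 : q < 1) (n N : ℕ) :
    F q n N = ∑ s ∈ SP n, cf q (dl s) * P (fun i => q ^ i) (dl s) (range N) := by
  sorry

end Pool.H53.RQ
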